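import Mathlib

/-!
A finite semi-rational group whose absolute center contains an element of order `3`.
-/

open scoped Matrix

namespace Pool.Agent.Results.MP_82b5c7_al.SemiRationalAbsoluteCenter

/-! ### Definitions from the problem -/

/-- `N_{w,G}(g)`: the number of `x ∈ G ^ r` with `w(x) = g`. -/
noncomputable def solutionCount {G : Type} [Group G] {r : ℕ} (w : FreeGroup (Fin r)) (g : G) : ℕ :=
  Nat.card {x : Fin r → G // FreeGroup.lift x w = g}

/-- The coefficient `⟨N_{w,G}, χ⟩ = |G|⁻¹ ∑_g N_{w,G}(g) conj χ(g)`, with `χ` the character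
of `ρ`. -/
noncomputable def coefficient {G : Type} [Group G] [Fintype G] {r : ℕ} (w : FreeGroup (Fin r))
    {V : Type} [AddCommGroup V] [Module ℂ V] (ρ : Representation ℂ G V) : ℂ :=
  (Nat.card G : ℂ)⁻¹ * ∑ g : G, (solutionCount w g : ℂ) * (starRingEnd ℂ) (ρ.character g)

/-- `G` is semi-rational: for every `r ≥ 1` and every word `w ∈ F_r` all coefficients of `N_{w,G}`
at the irreducible complex characters of `G` are integers. -/
def SemiRational (G : Type) [Group G] [Fintype G] : Prop :=
  ∀ (r : ℕ), 1 ≤ r → ∀ (w : FreeGroup (Fin r)) (V : Type) [AddCommGroup V] [Module ℂ V]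
    [FiniteDimensional ℂ V] (ρ : Representation ℂ G V), ρ.IsIrreducible →
    ∃ n : ℤ, coefficient w ρ = n

/-- The absolute center `Z*(G)`: the elements fixed by all automorphisms. -/
def absoluteCenter (G : Type) [Group G] : Subgroup G where
  carrier := {g | ∀ α : G ≃* G, α g = g}
  mul_mem' := by
    intro a b ha hb α
    rw [map_mul, ha α, hb α]
  one_mem' := fun α => map_one α
  inv_mem' := by
    intro a ha α
    rw [map_inv, ha α]

/-! ### The group -/

/-- The underlying set `(ℤ/9)³` of the group. -/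
@[ext] structure T where
  a : ZMod 9
  b : ZMod 9
  c : ZMod 9
  deriving DecidableEq, Fintype

namespace T

instance : Mul T := ⟨fun x y =>
  ⟨x.a + y.a + 6 * (x.c * y.a - x.a * y.c), x.b + y.b + 6 * (x.c * y.b - x.b * y.c),
    x.c + y.c + 6 * (x.a * y.b - x.b * y.a)⟩⟩

instance : One T := ⟨⟨0, 0, 0⟩⟩

instance : Inv T := ⟨fun x => ⟨-x.a, -x.b, -x.c⟩⟩

@[simp] lemma mul_a (x y : T) : (x * y).a = x.a + y.a + 6 * (x.c * y.a - x.a * y.c) := rfl
@[simp] lemma mul_b (x y : T) : (x * y).b = x.b + y.b + 6 * (x.c * y.b - x.b * y.c) := rfl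
@[simp] lemma mul_c (x y : T) : (x * y).c = x.c + y.c + 6 * (x.a * y.b - x.b * y.a) := rfl
@[simp] lemma one_a : (1 : T).a = 0 := rfl
@[simp] lemma one_b : (1 : T).b = 0 := rfl
@[simp] lemma one_c : (1 : T).c = 0 := rfl
@[simp] lemma inv_a (x : T) : (x⁻¹).a = -x.a := rfl
@[simp] lemma inv_b (x : T) : (x⁻¹).b = -x.b := rfl
@[simp] lemma inv_c (x : T) : (x⁻¹).c = -x.c := rfl

lemma h36 : (36 : ZMod 9) = 0 := by decide

instance : Group T := Group.ofLeftAxioms
  (by
    intro x y z
    ext
    · simp only [mul_a, mul_c]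
      linear_combination ((x.a*y.b-x.b*y.a)*z.a - (x.c*y.a-x.a*y.c)*z.c
        - x.c*(y.c*z.a-y.a*z.c) + x.a*(y.a*z.b-y.b*z.a)) * h36
    · simp only [mul_b, mul_c]
      linear_combination ((x.a*y.b-x.b*y.a)*z.b - (x.c*y.b-x.b*y.c)*z.c
        - x.c*(y.c*z.b-y.b*z.c) + x.b*(y.a*z.b-y.b*z.a)) * h36
    · simp only [mul_a, mul_b, mul_c]
      linear_combination ((x.c*y.a-x.a*y.c)*z.b - (x.c*y.b-x.b*y.c)*z.a
        - x.a*(y.c*z.b-y.b*z.c) + x.b*(y.c*z.a-y.a*z.c)) * h36)
  (by intro x; ext <;> simp)
  (by intro x; ext <;> simp <;> ring)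

end T

/-! ### The absolute center -/

/-- Reduction `ℤ/9 → ℤ/3`. -/
def red : ZMod 9 →+* ZMod 3 := ZMod.castHom (by norm_num) _

lemma red_eq_of_three_mul : ∀ s t : ZMod 9, 3 * s = 3 * t → red s = red t := by decide

lemma three_mul_of_red : ∀ s t : ZMod 9, red s = red t → 3 * s = 3 * t := by decide

/-- The `𝔽₃`-linear algebra behind the computation of the absolute center. -/
lemma key (x1 x2 x3 y1 y2 y3 z1 z2 z3 : ZMod 3)
    (h1 : z3 * x1 - z1 * x3 = x1) (h2 : z3 * x2 - z2 * x3 = x2) (h3 : z1 * x2 - z2 * x1 = x3)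
    (k1 : z3 * y1 - z1 * y3 = y1) (k2 : z3 * y2 - z2 * y3 = y2) (k3 : z1 * y2 - z2 * y1 = y3)
    (l1 : x3 * y1 - x1 * y3 = z1) (l2 : x3 * y2 - x2 * y3 = z2) (l3 : x1 * y2 - x2 * y1 = z3)
    (hx : ¬ (x1 = 0 ∧ x2 = 0 ∧ x3 = 0)) : z1 = 0 ∧ z2 = 0 ∧ z3 = 1 := by
  have h3' : (3 : ZMod 3) = 0 := by decide
  have h1' : (1 : ZMod 3) ≠ 0 := by decide
  have : Fact (Nat.Prime 3) := ⟨by norm_num⟩
  have hx3 : x3 * (1 + z3) = 0 := by
    linear_combination x1 * l2 - x2 * l1 - x3 * l3 - h3
  have hy3 : y3 * (1 + z3) = 0 := by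
    linear_combination y1 * l2 - y2 * l1 - y3 * l3 - k3
  rcases mul_eq_zero.1 hx3 with hx0 | hz
  · rcases mul_eq_zero.1 hy3 with hy0 | hz
    · subst hx0 hy0
      have hz1 : z1 = 0 := by linear_combination -l1
      have hz2 : z2 = 0 := by linear_combination -l2
      refine ⟨hz1, hz2, ?_⟩
      subst hz1 hz2
      have h1' : x1 * (z3 - 1) = 0 := by linear_combination h1
      have h2' : x2 * (z3 - 1) = 0 := by linear_combination h2
      rcases mul_eq_zero.1 h1' with e1 | e1
      · rcases mul_eq_zero.1 h2' with e2 | e2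
        · exact absurd ⟨e1, e2, rfl⟩ hx
        · linear_combination e2
      · linear_combination e1
    · exfalso
      subst hx0
      have hz3 : z3 = -1 := by linear_combination hz
      subst hz3
      have e1 : x1 = 0 := by linear_combination h1 + x1 * h3'
      have e2 : x2 = 0 := by linear_combination h2 + x2 * h3'
      exact hx ⟨e1, e2, rfl⟩
  · exfalso
    have hz3 : z3 = -1 := by linear_combination hz
    subst hz3
    have e1 : x1 = z1 * x3 := by linear_combination h1 + x1 * h3'
    have e2 : x2 = z2 * x3 := by linear_combination h2 + x2 * h3'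
    have e3 : y1 = z1 * y3 := by linear_combination k1 + y1 * h3'
    have e4 : y2 = z2 * y3 := by linear_combination k2 + y2 * h3'
    rw [e1, e2, e3, e4] at l3
    exact h1' (by linear_combination l3)

lemma fixed (α : T ≃* T) : α ⟨0, 0, 3⟩ = ⟨0, 0, 3⟩ := by
  set X : T := ⟨1, 0, 0⟩ with hX
  set Y : T := ⟨0, 1, 0⟩ with hY
  set Z : T := ⟨0, 0, 1⟩ with hZ
  have r1 : Z * X = X * X * X * X * Z := by decide
  have r2 : Z * Y = Y * Y * Y * Y * Z := by decide
  have r3 : X * Y = Z * Z * Z * Y * X := by decide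
  have r4 : X * X * X ≠ 1 := by decide
  have r5 : (⟨0, 0, 3⟩ : T) = Z * Z * Z := by decide
  have s1 := congrArg α r1
  have s2 := congrArg α r2
  have s3 := congrArg α r3
  have s4 : α X * α X * α X ≠ 1 := by
    intro h
    apply r4
    apply α.injective
    simpa using h
  rw [r5]
  simp only [map_mul] at s1 s2 s3 ⊢
  generalize α X = x at *
  generalize α Y = y at *
  generalize α Z = z at *
  have a1 := congrArg T.a s1
  have a2 := congrArg T.b s1
  have a3 := congrArg T.c s1
  have b1 := congrArg T.a s2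
  have b2 := congrArg T.b s2
  have b3 := congrArg T.c s2
  have c1 := congrArg T.a s3
  have c2 := congrArg T.b s3
  have c3 := congrArg T.c s3
  simp only [T.mul_a, T.mul_b, T.mul_c] at a1 a2 a3 b1 b2 b3 c1 c2 c3
  have A1 : 3 * (z.c * x.a - z.a * x.c) = 3 * x.a := by
    linear_combination (norm := (ring_nf; reduce_mod_char)) a1
  have A2 : 3 * (z.c * x.b - z.b * x.c) = 3 * x.b := by
    linear_combination (norm := (ring_nf; reduce_mod_char)) a2
  have A3 : 3 * (z.a * x.b - z.b * x.a) = 3 * x.c := by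
    linear_combination (norm := (ring_nf; reduce_mod_char)) a3
  have B1 : 3 * (z.c * y.a - z.a * y.c) = 3 * y.a := by
    linear_combination (norm := (ring_nf; reduce_mod_char)) b1
  have B2 : 3 * (z.c * y.b - z.b * y.c) = 3 * y.b := by
    linear_combination (norm := (ring_nf; reduce_mod_char)) b2
  have B3 : 3 * (z.a * y.b - z.b * y.a) = 3 * y.c := by
    linear_combination (norm := (ring_nf; reduce_mod_char)) b3
  have C1 : 3 * (x.c * y.a - x.a * y.c) = 3 * z.a := by
    linear_combination (norm := (ring_nf; reduce_mod_char)) c1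
  have C2 : 3 * (x.c * y.b - x.b * y.c) = 3 * z.b := by
    linear_combination (norm := (ring_nf; reduce_mod_char)) c2
  have C3 : 3 * (x.a * y.b - x.b * y.a) = 3 * z.c := by
    linear_combination (norm := (ring_nf; reduce_mod_char)) c3
  replace A1 := red_eq_of_three_mul _ _ A1
  replace A2 := red_eq_of_three_mul _ _ A2
  replace A3 := red_eq_of_three_mul _ _ A3
  replace B1 := red_eq_of_three_mul _ _ B1
  replace B2 := red_eq_of_three_mul _ _ B2
  replace B3 := red_eq_of_three_mul _ _ B3
  replace C1 := red_eq_of_three_mul _ _ C1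
  replace C2 := red_eq_of_three_mul _ _ C2
  replace C3 := red_eq_of_three_mul _ _ C3
  simp only [map_sub, map_mul] at A1 A2 A3 B1 B2 B3 C1 C2 C3
  have hx : ¬ (red x.a = 0 ∧ red x.b = 0 ∧ red x.c = 0) := by
    rintro ⟨h1, h2, h3⟩
    apply s4
    have k1 := three_mul_of_red _ 0 (by simpa using h1)
    have k2 := three_mul_of_red _ 0 (by simpa using h2)
    have k3 := three_mul_of_red _ 0 (by simpa using h3)
    ext
    · simp only [T.mul_a, T.mul_b, T.mul_c, T.one_a]
      linear_combination k1
    · simp only [T.mul_a, T.mul_b, T.mul_c, T.one_b]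
      linear_combination k2
    · simp only [T.mul_a, T.mul_b, T.mul_c, T.one_c]
      linear_combination k3
  obtain ⟨z1, z2, z3⟩ := key _ _ _ _ _ _ _ _ _ A1 A2 A3 B1 B2 B3 C1 C2 C3 hx
  have k1 := three_mul_of_red _ 0 (by simpa using z1)
  have k2 := three_mul_of_red _ 0 (by simpa using z2)
  have k3 := three_mul_of_red _ 1 (by simpa using z3)
  ext
  · simp only [hZ, T.mul_a, T.mul_b, T.mul_c]
    linear_combination k1
  · simp only [hZ, T.mul_a, T.mul_b, T.mul_c]
    linear_combination k2
  · simp only [hZ, T.mul_a, T.mul_b, T.mul_c]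
    linear_combination k3

/-! ### Linear algebra: an involution with multiplier `-1` -/

lemma exists_invol (K : Type) [Field K] (n : ℕ) : ∀ (U : Type) [AddCommGroup U] [Module K U]
    [FiniteDimensional K U] (A : U →ₗ[K] U →ₗ[K] K) (a : U →ₗ[K] K), (∀ x, A x x = 0) →
    Module.finrank K U ≤ n →
    ∃ M : U →ₗ[K] U, (∀ x, M (M x) = x) ∧ (∀ x y, A (M x) (M y) = - A x y) ∧
      ∀ x, a (M x) = - a x := by
  induction n with
  | zero =>
    intro U _ _ _ A a _ hn
    have : Subsingleton U := Module.finrank_zero_iff.1 (Nat.le_zero.1 hn)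
    refine ⟨0, fun x => Subsingleton.elim _ _, fun x y => ?_, fun x => ?_⟩
    · rw [Subsingleton.elim x 0]; simp
    · rw [Subsingleton.elim x 0]; simp
  | succ n ih =>
    intro U _ _ _ A a hA hn
    by_cases h0 : ∀ x y, A x y = 0
    · refine ⟨-LinearMap.id, fun x => by simp, fun x y => by simp [h0], fun x => by simp⟩
    · push Not at h0
      obtain ⟨e, f0, hef0⟩ := h0
      obtain ⟨f, hef⟩ : ∃ f, A e f = 1 := ⟨(A e f0)⁻¹ • f0, by simp [hef0]⟩
      have hskew : ∀ x y, A x y = - A y x := by
        intro x y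
        have := hA (x + y)
        simp only [map_add, LinearMap.add_apply, hA, zero_add, add_zero] at this
        linear_combination this
      have hfe : A f e = -1 := by rw [hskew, hef]
      set U1 : Submodule K U := LinearMap.ker (A e) ⊓ LinearMap.ker (A f) with hU1
      have hU1' : ∀ y : U1, A e y = 0 ∧ A f y = 0 := fun y => by
        have h : (y : U) ∈ LinearMap.ker (A e) ⊓ LinearMap.ker (A f) := y.2
        exact Submodule.mem_inf.1 h
      have hU1'' : ∀ y : U1, A y e = 0 ∧ A y f = 0 := fun y => by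
        rw [hskew, hskew (y : U) f, (hU1' y).1, (hU1' y).2]; simp
      have hlt : Module.finrank K U1 < Module.finrank K U := by
        apply Submodule.finrank_lt
        intro h
        have : e ∈ U1 := by rw [h]; trivial
        have := (hU1' ⟨e, this⟩).2
        rw [hfe] at this
        simp at this
      obtain ⟨M1, hM1, hM2, hM3⟩ := ih U1 (A.compl₁₂ U1.subtype U1.subtype) (a ∘ₗ U1.subtype)
        (fun x => by simp [hA]) (by omega)
      obtain ⟨ε, s, hε, h1, h2⟩ : ∃ ε s : K, ε * ε = 1 ∧ ε * a e = - a e ∧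
          -ε * a f + s * a e = - a f := by
        by_cases hae : a e = 0
        · exact ⟨1, 0, by simp, by simp [hae], by simp⟩
        · refine ⟨-1, -2 * (a f / a e), by simp, by simp, ?_⟩
          field_simp
          ring
      set pr : U →ₗ[K] U1 := LinearMap.codRestrict U1
        (LinearMap.id + (A f).smulRight e - (A e).smulRight f) (by
          intro x
          rw [hU1, Submodule.mem_inf]
          constructor
          · simp [hA, hef]
          · simp [hA, hfe]) with hpr
      set M : U →ₗ[K] U := (-(A f)).smulRight (ε • e) + (A e).smulRight (-ε • f + s • e) +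
        U1.subtype ∘ₗ M1 ∘ₗ pr with hM
      have hMf : ∀ (l m : K) (y : U1), M (l • e + m • f + y) =
          l • (ε • e) + m • (-ε • f + s • e) + M1 y := by
        intro l m y
        have e1 : A f (l • e + m • f + y) = -l := by
          simp [hA, hfe, (hU1' y).2]
        have e2 : A e (l • e + m • f + y) = m := by
          simp [hA, hef, (hU1' y).1]
        have e3 : pr (l • e + m • f + y) = y := by
          apply Subtype.ext
          rw [hpr, LinearMap.codRestrict_apply]
          simp only [LinearMap.sub_apply, LinearMap.add_apply, LinearMap.id_apply,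
            LinearMap.smulRight_apply]
          rw [e1, e2]
          module
        rw [hM]
        simp only [LinearMap.add_apply, LinearMap.smulRight_apply, LinearMap.neg_apply,
          LinearMap.comp_apply, Submodule.subtype_apply]
        rw [e1, e2, e3, neg_neg]
      have hdec : ∀ x : U, ∃ (l m : K) (y : U1), x = l • e + m • f + y := by
        intro x
        refine ⟨-(A f x), A e x, pr x, ?_⟩
        rw [hpr, LinearMap.codRestrict_apply]
        simp only [LinearMap.sub_apply, LinearMap.add_apply, LinearMap.id_apply,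
          LinearMap.smulRight_apply]
        module
      refine ⟨M, ?_, ?_, ?_⟩
      · intro x
        obtain ⟨l, m, y, rfl⟩ := hdec x
        rw [hMf]
        have : l • ε • e + m • (-ε • f + s • e) + (M1 y : U) =
          (l * ε + m * s) • e + (-(m * ε)) • f + (M1 y : U) := by module
        rw [this, hMf, hM1]
        have : (l * ε + m * s) • ε • e + -(m * ε) • (-ε • f + s • e) + (y : U) =
          (l * (ε * ε)) • e + (m * (ε * ε)) • f + (y : U) := by module
        rw [this, hε, mul_one, mul_one]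
      · intro x x'
        obtain ⟨l, m, y, rfl⟩ := hdec x
        obtain ⟨l', m', y', rfl⟩ := hdec x'
        rw [hMf, hMf]
        have hh := hM2 y y'
        simp only [LinearMap.compl₁₂_apply, Submodule.subtype_apply] at hh
        simp only [map_add, map_smul, LinearMap.add_apply, LinearMap.smul_apply, smul_eq_mul,
          hA, hef, hfe, (hU1' _).1, (hU1' _).2, (hU1'' _).1, (hU1'' _).2, hh]
        linear_combination (-(l * m') + m * l') * hε
      · intro x
        obtain ⟨l, m, y, rfl⟩ := hdec x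
        rw [hMf]
        have hh := hM3 y
        simp only [LinearMap.comp_apply, Submodule.subtype_apply] at hh
        simp only [map_add, map_smul, smul_eq_mul, hh]
        linear_combination l * h1 + m * h2

/-! ### Word maps -/

/-- The alternating form attached to a matrix. -/
def bf {R : Type} [CommRing R] {r : ℕ} (B : Matrix (Fin r) (Fin r) R) (u v : Fin r → R) : R :=
  u ⬝ᵥ (B *ᵥ v) - v ⬝ᵥ (B *ᵥ u)

lemma bf_zero {R : Type} [CommRing R] {r : ℕ} (u v : Fin r → R) :
    bf (0 : Matrix (Fin r) (Fin r) R) u v = 0 := by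
  simp [bf]

lemma bf_add {R : Type} [CommRing R] {r : ℕ} (B B' : Matrix (Fin r) (Fin r) R)
    (u v : Fin r → R) : bf (B + B') u v = bf B u v + bf B' u v := by
  simp only [bf, Matrix.add_mulVec, dotProduct_add]
  ring

lemma bf_neg {R : Type} [CommRing R] {r : ℕ} (B : Matrix (Fin r) (Fin r) R)
    (u v : Fin r → R) : bf (-B) u v = - bf B u v := by
  simp only [bf, Matrix.neg_mulVec, dotProduct_neg]
  ring

lemma bf_vecMulVec {R : Type} [CommRing R] {r : ℕ} (α β : Fin r → R)
    (u v : Fin r → R) : bf (Matrix.vecMulVec α β) u v =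
      (α ⬝ᵥ u) * (β ⬝ᵥ v) - (α ⬝ᵥ v) * (β ⬝ᵥ u) := by
  simp only [bf, Matrix.vecMulVec_mulVec, dotProduct_smul, MulOpposite.smul_eq_mul_unop,
    MulOpposite.unop_op, dotProduct_comm u α, dotProduct_comm v α]

/-- Coordinates of a tuple. -/
def ca {r : ℕ} (x : Fin r → T) : Fin r → ZMod 9 := fun i => (x i).a
def cb {r : ℕ} (x : Fin r → T) : Fin r → ZMod 9 := fun i => (x i).b
def cc {r : ℕ} (x : Fin r → T) : Fin r → ZMod 9 := fun i => (x i).c

/-- The value of the word map with exponent sums `α` and commutator part `B`. -/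
def ev {r : ℕ} (α : Fin r → ZMod 9) (B : Matrix (Fin r) (Fin r) (ZMod 9)) (x : Fin r → T) : T :=
  ⟨α ⬝ᵥ ca x + 6 * bf B (cc x) (ca x), α ⬝ᵥ cb x + 6 * bf B (cc x) (cb x),
    α ⬝ᵥ cc x + 6 * bf B (ca x) (cb x)⟩

lemma ev_mul {r : ℕ} (α α' : Fin r → ZMod 9) (B B' : Matrix (Fin r) (Fin r) (ZMod 9))
    (x : Fin r → T) : ev α B x * ev α' B' x =
      ev (α + α') (B + B' + Matrix.vecMulVec α α') x := by
  ext
  · simp only [ev, T.mul_a, bf_add, bf_vecMulVec, add_dotProduct]
    ring_nf
    reduce_mod_char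
  · simp only [ev, T.mul_b, bf_add, bf_vecMulVec, add_dotProduct]
    ring_nf
    reduce_mod_char
  · simp only [ev, T.mul_c, bf_add, bf_vecMulVec, add_dotProduct]
    ring_nf
    reduce_mod_char

lemma word_formula {r : ℕ} (w : FreeGroup (Fin r)) :
    ∃ (α : Fin r → ZMod 9) (B : Matrix (Fin r) (Fin r) (ZMod 9)),
      ∀ x : Fin r → T, FreeGroup.lift x w = ev α B x := by
  induction w using FreeGroup.induction_on with
  | C1 => exact ⟨0, 0, fun x => by ext <;> simp [ev, bf_zero]⟩
  | of i => exact ⟨Pi.single i 1, 0, fun x => by ext <;> simp [ev, bf_zero, ca, cb, cc]⟩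
  | inv_of i _ =>
    exact ⟨-Pi.single i 1, 0, fun x => by ext <;> simp [ev, bf_zero, ca, cb, cc]⟩
  | mul u v hu hv =>
    obtain ⟨α, B, h⟩ := hu
    obtain ⟨α', B', h'⟩ := hv
    exact ⟨_, _, fun x => by rw [map_mul, h, h', ev_mul]⟩

/-! ### Characters -/

section rep

variable {V : Type} [AddCommGroup V] [Module ℂ V] [FiniteDimensional ℂ V]

lemma sum_char_hom {G H : Type} [Group G] [Group H] [Fintype H] (φ : H →* G)
    (ρ : Representation ℂ G V) : ∃ n : ℕ, ∑ h : H, ρ.character (φ h) = (Nat.card H : ℂ) * n := by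
  have hne : (Nat.card H : ℂ) ≠ 0 := by
    simp only [ne_eq, Nat.cast_eq_zero]
    exact Nat.card_pos.ne'
  have : Invertible (Nat.card H : ℂ) := invertibleOfNonzero hne
  let σ : Representation ℂ H V := ρ.comp φ
  have h := Representation.card_inv_mul_sum_char_eq_finrank σ
  refine ⟨Module.finrank ℂ (Representation.invariants σ), ?_⟩
  rw [← h, ← mul_assoc, mul_inv_cancel₀ hne, one_mul]
  rfl

lemma char_add_inv {G : Type} [Group G] (ρ : Representation ℂ G V) (g : G) (hg : g ^ 3 = 1) :
    ∃ z : ℤ, ρ.character g + ρ.character g⁻¹ = z := by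
  have h3 : ρ g * ρ g * ρ g = 1 := by
    rw [← map_mul, ← map_mul, ← map_one ρ, ← hg, pow_three']
  have hinv : ρ g⁻¹ = ρ g * ρ g := by
    rw [← map_mul]
    congr 1
    rw [inv_eq_iff_mul_eq_one, ← hg, pow_three]
  set t : Module.End ℂ V := ρ g with ht
  have h4 : t * t * (t * t) = t := by
    rw [← mul_assoc, h3, one_mul]
  set P : Module.End ℂ V := (3 : ℂ)⁻¹ • (1 + t + t * t) with hP
  have hPP : IsIdempotentElem P := by
    rw [IsIdempotentElem, hP, smul_mul_smul_comm]
    have : (1 + t + t * t) * (1 + t + t * t) = (3 : ℂ) • (1 + t + t * t) := by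
      have e1 : t * (t * t) = 1 := by rw [← mul_assoc, h3]
      simp only [mul_add, add_mul, one_mul, mul_one, h3, h4, e1]
      module
    rw [this, smul_smul]
    norm_num
  have htr := (LinearMap.IsIdempotentElem.isProj_range P hPP).trace
  have h1 : LinearMap.trace ℂ V P = (3 : ℂ)⁻¹ * (Module.finrank ℂ V + ρ.character g +
      ρ.character g⁻¹) := by
    rw [hP, map_smul, map_add, map_add, LinearMap.trace_one]
    simp only [Representation.character, hinv, smul_eq_mul]
    rfl
  refine ⟨3 * Module.finrank ℂ (LinearMap.range P) - Module.finrank ℂ V, ?_⟩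
  rw [h1] at htr
  push_cast
  rw [← htr]
  ring

end rep

/-! ### The two kinds of words -/

/-- `t ↦ 6 t` from `ℤ/3` to `ℤ/9`. -/
def io (t : ZMod 3) : ZMod 9 := 6 * (t.val : ZMod 9)

lemma io_red : ∀ t : ZMod 9, 6 * t = io (red t) := by decide

lemma io_neg : ∀ t : ZMod 3, io (-t) = - io t := by decide

lemma io_add : ∀ s t : ZMod 3, io (s + t) = io s + io t := by decide

lemma io_zero : io 0 = 0 := by decide

lemma three_io : ∀ t : ZMod 3, io t + io t + io t = 0 := by decide

lemma io_mul_io : ∀ s t : ZMod 3, io s * io t = 0 := by decide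

lemma exists_six : ∀ t : ZMod 9, red t = 0 → ∃ s, t = 6 * s := by decide

lemma red_six : red 6 = 0 := by decide

lemma red_map_bf {r : ℕ} (B : Matrix (Fin r) (Fin r) (ZMod 9)) (u v : Fin r → ZMod 9) :
    red (bf B u v) = bf (B.map red) (red ∘ u) (red ∘ v) := by
  have h : ∀ v : Fin r → ZMod 9, red ∘ (B *ᵥ v) = B.map red *ᵥ (red ∘ v) := by
    intro v
    funext i
    exact RingHom.map_mulVec red B v i
  simp only [bf, map_sub, RingHom.map_dotProduct, h]

/-- Triples of vectors over `𝔽₃`. -/
abbrev W (r : ℕ) : Type := (Fin r → ZMod 3) × (Fin r → ZMod 3) × (Fin r → ZMod 3)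

/-- Reduction of a tuple of group elements. -/
def rd {r : ℕ} (x : Fin r → T) : W r := (red ∘ ca x, red ∘ cb x, red ∘ cc x)

/-- The quotient digit. -/
def dig (t : ZMod 9) : ZMod 3 := ((t.val / 3 : ℕ) : ZMod 3)

def glue (s t : ZMod 3) : ZMod 9 := ((s.val + 3 * t.val : ℕ) : ZMod 9)

lemma glue_red_dig : ∀ t : ZMod 9, glue (red t) (dig t) = t := by decide
lemma red_glue : ∀ s t : ZMod 3, red (glue s t) = s := by decide
lemma dig_glue : ∀ s t : ZMod 3, dig (glue s t) = t := by decide

/-- Splitting a tuple of group elements into its reduction and its second digits. -/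
def splitEquiv (r : ℕ) : (Fin r → T) ≃ W r × W r where
  toFun x := (rd x, (dig ∘ ca x, dig ∘ cb x, dig ∘ cc x))
  invFun p := fun i => ⟨glue (p.1.1 i) (p.2.1 i), glue (p.1.2.1 i) (p.2.2.1 i),
    glue (p.1.2.2 i) (p.2.2.2 i)⟩
  left_inv x := by
    funext i
    ext <;> simp [rd, ca, cb, cc, glue_red_dig]
  right_inv p := by
    refine Prod.ext (Prod.ext ?_ (Prod.ext ?_ ?_)) (Prod.ext ?_ (Prod.ext ?_ ?_)) <;>
    · funext i
      simp [rd, ca, cb, cc, red_glue, dig_glue]

lemma card_W (r : ℕ) : Fintype.card (W r) = 27 ^ r := by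
  simp only [Fintype.card_prod, Fintype.card_fun, ZMod.card, Fintype.card_fin]
  rw [← mul_pow, ← mul_pow]
  norm_num

lemma sum_rd {r : ℕ} (H : W r → ℂ) : ∑ x : Fin r → T, H (rd x) = 27 ^ r * ∑ v, H v := by
  rw [← Equiv.sum_comp (splitEquiv r).symm]
  have : ∀ p : W r × W r, H (rd ((splitEquiv r).symm p)) = H p.1 := by
    intro p
    have h := (splitEquiv r).apply_symm_apply p
    have h2 : ((splitEquiv r) ((splitEquiv r).symm p)).1 = p.1 := by rw [h]
    exact congrArg H h2
  simp only [this]
  rw [Fintype.sum_prod_type]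
  simp only [Finset.sum_const, Finset.card_univ, card_W, nsmul_eq_mul]
  rw [← Finset.mul_sum]
  push_cast
  rfl

/-- The reduced word map. -/
def F {r : ℕ} (β : Fin r → ZMod 3) (B : Matrix (Fin r) (Fin r) (ZMod 3)) (v : W r) : T :=
  ⟨io (β ⬝ᵥ v.1 + bf B v.2.2 v.1), io (β ⬝ᵥ v.2.1 + bf B v.2.2 v.2.1),
    io (β ⬝ᵥ v.2.2 + bf B v.1 v.2.1)⟩

lemma ev_eq_F {r : ℕ} (α : Fin r → ZMod 9) (B : Matrix (Fin r) (Fin r) (ZMod 9))
    (h : ∀ i, red (α i) = 0) : ∃ β : Fin r → ZMod 3, ∀ x : Fin r → T,
      ev α B x = F β (B.map red) (rd x) := by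
  choose s hs using fun i => exists_six (α i) (h i)
  have hα : α = (6 : ZMod 9) • s := by
    funext i
    simpa using hs i
  refine ⟨red ∘ s, fun x => ?_⟩
  ext
  · simp only [ev, F, rd, hα, smul_dotProduct, smul_eq_mul]
    rw [← mul_add, io_red, map_add, red_map_bf, RingHom.map_dotProduct]
  · simp only [ev, F, rd, hα, smul_dotProduct, smul_eq_mul]
    rw [← mul_add, io_red, map_add, red_map_bf, RingHom.map_dotProduct]
  · simp only [ev, F, rd, hα, smul_dotProduct, smul_eq_mul]
    rw [← mul_add, io_red, map_add, red_map_bf, RingHom.map_dotProduct]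

/-! ### Words with all exponent sums divisible by three -/

lemma F_pow_three {r : ℕ} (β : Fin r → ZMod 3) (B : Matrix (Fin r) (Fin r) (ZMod 3)) (v : W r) :
    F β B v ^ 3 = 1 := by
  have h2 : ∀ s t u : ZMod 3, (⟨io s, io t, io u⟩ : T) * ⟨io s, io t, io u⟩ =
      ⟨io s + io s, io t + io t, io u + io u⟩ := by
    intro s t u
    ext <;> simp only [T.mul_a, T.mul_b, T.mul_c] <;> ring
  have h3 : ∀ s t u : ZMod 3, (⟨io s, io t, io u⟩ : T) ^ 3 = 1 := by
    intro s t u
    rw [pow_three', h2]
    ext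
    · simp only [T.mul_a, T.one_a]
      linear_combination three_io s
    · simp only [T.mul_b, T.one_b]
      linear_combination three_io t
    · simp only [T.mul_c, T.one_c]
      linear_combination three_io u
  exact h3 _ _ _

lemma eq_one_of_eq_inv (g : T) (h : g = g⁻¹) : g = 1 := by
  have key : ∀ t : ZMod 9, t = -t → t = 0 := by decide
  ext
  · exact key _ (congrArg T.a h)
  · exact key _ (congrArg T.b h)
  · exact key _ (congrArg T.c h)

section sums

variable {V : Type} [AddCommGroup V] [Module ℂ V] [FiniteDimensional ℂ V]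

/-- An involution of the assignments inverting the values of the reduced word map. -/
lemma exists_flip {r : ℕ} (β : Fin r → ZMod 3) (B : Matrix (Fin r) (Fin r) (ZMod 3)) :
    ∃ Φ : W r → W r, (∀ v, Φ (Φ v) = v) ∧ ∀ v, F β B (Φ v) = (F β B v)⁻¹ := by
  have : Fact (Nat.Prime 3) := ⟨by norm_num⟩
  let A : (Fin r → ZMod 3) →ₗ[ZMod 3] (Fin r → ZMod 3) →ₗ[ZMod 3] ZMod 3 :=
    LinearMap.mk₂ (ZMod 3) (fun u v => bf B u v)
      (by intro u u' v; simp only [bf, add_dotProduct, Matrix.mulVec_add, dotProduct_add]; ring)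
      (by intro c u v; simp only [bf, smul_dotProduct, Matrix.mulVec_smul, dotProduct_smul,
        smul_eq_mul]; ring)
      (by intro u v v'; simp only [bf, add_dotProduct, Matrix.mulVec_add, dotProduct_add]; ring)
      (by intro c u v; simp only [bf, smul_dotProduct, Matrix.mulVec_smul, dotProduct_smul,
        smul_eq_mul]; ring)
  let a : (Fin r → ZMod 3) →ₗ[ZMod 3] ZMod 3 :=
    { toFun := fun u => β ⬝ᵥ u
      map_add' := fun u v => dotProduct_add _ _ _
      map_smul' := fun c u => by simp [dotProduct_smul] }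
  obtain ⟨M, hM1, hM2, hM3⟩ := exists_invol (ZMod 3) _ (Fin r → ZMod 3) A a
    (fun x => by simp [A, bf]) le_rfl
  have hA : ∀ u v, bf B (M u) (M v) = - bf B u v := fun u v => hM2 u v
  have ha : ∀ u, β ⬝ᵥ (M u) = - (β ⬝ᵥ u) := fun u => hM3 u
  refine ⟨fun v => (M v.1, M v.2.1, M v.2.2), fun v => by simp [hM1], fun v => ?_⟩
  ext
  · simp only [F, T.inv_a, hA, ha]
    rw [← neg_add, io_neg]
  · simp only [F, T.inv_b, hA, ha]
    rw [← neg_add, io_neg]
  · simp only [F, T.inv_c, hA, ha]
    rw [← neg_add, io_neg]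

lemma sum_F {r : ℕ} (β : Fin r → ZMod 3) (B : Matrix (Fin r) (Fin r) (ZMod 3))
    (ρ : Representation ℂ T V) : ∃ n : ℤ, ∑ v : W r, ρ.character (F β B v) = n := by
  obtain ⟨Φ, hΦ, hF⟩ := exists_flip β B
  choose z hz using fun v => char_add_inv ρ (F β B v) (F_pow_three β B v)
  have hzΦ : ∀ v, z (Φ v) = z v := by
    intro v
    have h1 := hz (Φ v)
    rw [hF, inv_inv, add_comm, hz] at h1
    exact_mod_cast h1.symm
  have hfix : ∀ v, Φ v = v → ((z v : ℤ) : ZMod 2) = 0 := by
    intro v hv
    have h1 : F β B v = 1 := eq_one_of_eq_inv _ (by rw [← hF, hv])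
    have h2 := hz v
    rw [h1, inv_one, Representation.char_one] at h2
    have h3 : z v = 2 * Module.finrank ℂ V := by
      have : ((z v : ℤ) : ℂ) = ((2 * Module.finrank ℂ V : ℤ) : ℂ) := by
        rw [← h2]; push_cast; ring
      exact_mod_cast this
    rw [h3]
    push_cast
    have : (2 : ZMod 2) = 0 := by decide
    rw [this, zero_mul]
  have heven : ((∑ v, z v : ℤ) : ZMod 2) = 0 := by
    push_cast
    refine Finset.sum_involution (fun v _ => Φ v) ?_ ?_ (fun v _ => Finset.mem_univ _)
      (fun v _ => hΦ v)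
    · intro v _
      rw [hzΦ]
      have : (2 : ZMod 2) = 0 := by decide
      linear_combination (z v : ZMod 2) * this
    · intro v _ h1 h2
      exact h1 (hfix v h2)
  rw [ZMod.intCast_zmod_eq_zero_iff_dvd] at heven
  obtain ⟨n, hn⟩ := heven
  refine ⟨n, ?_⟩
  have h1 : ∑ v : W r, ρ.character (F β B v)⁻¹ = ∑ v : W r, ρ.character (F β B v) := by
    let e : W r ≃ W r := ⟨Φ, Φ, hΦ, hΦ⟩
    rw [← Equiv.sum_comp e]
    exact Finset.sum_congr rfl fun v _ => by
      show ρ.character (F β B (Φ v))⁻¹ = _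
      rw [hF, inv_inv]
  have h2 : ∑ v : W r, (ρ.character (F β B v) + ρ.character (F β B v)⁻¹) =
      ((2 * n : ℤ) : ℂ) := by
    rw [← Nat.cast_ofNat (R := ℤ), ← hn]
    push_cast
    exact Finset.sum_congr rfl fun v _ => hz v
  rw [Finset.sum_add_distrib, h1] at h2
  push_cast at h2
  linear_combination h2 / 2

lemma sum_F_one (β : Fin 1 → ZMod 3) (B : Matrix (Fin 1) (Fin 1) (ZMod 3))
    (ρ : Representation ℂ T V) : ∃ n : ℕ, ∑ v : W 1, ρ.character (F β B v) = 27 * n := by
  have hb : ∀ u v : Fin 1 → ZMod 3, bf B u v = 0 := by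
    intro u v
    simp [bf, dotProduct, Matrix.mulVec]
    ring
  let φ : Multiplicative (W 1) →* T :=
    { toFun := fun v => F β B v.toAdd
      map_one' := by
        ext <;> simp [F, hb, io_zero]
      map_mul' := by
        intro u v
        ext
        · simp only [F, hb, T.mul_a, add_zero, toAdd_mul, Prod.fst_add, Prod.snd_add,
            dotProduct_add, io_add, io_mul_io]
          ring
        · simp only [F, hb, T.mul_b, add_zero, toAdd_mul, Prod.fst_add, Prod.snd_add,
            dotProduct_add, io_add, io_mul_io]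
          ring
        · simp only [F, hb, T.mul_c, add_zero, toAdd_mul, Prod.fst_add, Prod.snd_add,
            dotProduct_add, io_add, io_mul_io]
          ring }
  obtain ⟨n, hn⟩ := sum_char_hom φ ρ
  refine ⟨n, ?_⟩
  have hc : Nat.card (Multiplicative (W 1)) = 27 := by
    rw [Nat.card_eq_fintype_card, Fintype.card_multiplicative, card_W, pow_one]
  rw [hc] at hn
  rw [← Equiv.sum_comp Multiplicative.toAdd]
  exact_mod_cast hn

end sums

/-! ### Words with an exponent sum prime to three -/

lemma dot_single {R : Type} [CommRing R] {r : ℕ} (α u v : Fin r → R) (i : Fin r)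
    (h : ∀ j, j ≠ i → u j = v j) : α ⬝ᵥ u - α ⬝ᵥ v = α i * (u i - v i) := by
  rw [← dotProduct_sub, dotProduct, Finset.sum_eq_single i]
  · rfl
  · intro j _ hj
    simp [h j hj]
  · simp

lemma unit_cancel : ∀ s t : ZMod 9, red s ≠ 0 → s * t = 0 → t = 0 := by decide

lemma sum_unit {r : ℕ} (α : Fin r → ZMod 9) (B : Matrix (Fin r) (Fin r) (ZMod 9)) (i : Fin r)
    (hi : red (α i) ≠ 0) (h : T → ℂ) :
    ∑ x : Fin r → T, h (ev α B x) = (Fintype.card ({j // j ≠ i} → T) : ℂ) * ∑ g, h g := by
  have : Fact (Nat.Prime 3) := ⟨by norm_num⟩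
  set S : (Fin r → T) → (Fin r → T) := fun x => Function.update x i (ev α B x) with hS
  have hinj : Function.Injective S := by
    intro x x' hxx
    have hj : ∀ j, j ≠ i → x j = x' j := by
      intro j hji
      have := congrFun hxx j
      simpa [hS, Function.update_of_ne hji] using this
    have he : ev α B x = ev α B x' := by
      have := congrFun hxx i
      simpa [hS] using this
    -- reductions agree
    have hred : ∀ (u u' : Fin r → ZMod 9) (s s' : ZMod 9), (∀ j, j ≠ i → u j = u' j) →
        α ⬝ᵥ u + 6 * s = α ⬝ᵥ u' + 6 * s' → red ∘ u = red ∘ u' := by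
      intro u u' s s' huu hh
      have h1 := congrArg red hh
      rw [map_add, map_add, map_mul, map_mul, red_six, zero_mul, zero_mul, add_zero, add_zero,
        RingHom.map_dotProduct, RingHom.map_dotProduct] at h1
      have h2 := dot_single (red ∘ α) (red ∘ u) (red ∘ u') i (fun j hji => by
        simp [huu j hji])
      rw [h1, sub_self] at h2
      funext j
      by_cases hji : j = i
      · subst hji
        rcases mul_eq_zero.1 h2.symm with h3 | h3
        · exact absurd h3 hi
        · exact sub_eq_zero.1 h3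
      · simp [huu j hji]
    have ja : ∀ j, j ≠ i → ca x j = ca x' j := fun j hji => by simp [ca, hj j hji]
    have jb : ∀ j, j ≠ i → cb x j = cb x' j := fun j hji => by simp [cb, hj j hji]
    have jc : ∀ j, j ≠ i → cc x j = cc x' j := fun j hji => by simp [cc, hj j hji]
    have ea := congrArg T.a he
    have eb := congrArg T.b he
    have ec := congrArg T.c he
    simp only [ev] at ea eb ec
    have ra := hred _ _ _ _ ja ea
    have rb := hred _ _ _ _ jb eb
    have rc := hred _ _ _ _ jc ec
    simp only [io_red, red_map_bf, ra, rb, rc, add_left_inj] at ea eb ec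
    have fin : ∀ u u' : Fin r → ZMod 9, (∀ j, j ≠ i → u j = u' j) → α ⬝ᵥ u = α ⬝ᵥ u' →
        u i = u' i := by
      intro u u' huu hh
      have h2 := dot_single α u u' i huu
      rw [hh, sub_self] at h2
      exact sub_eq_zero.1 (unit_cancel _ _ hi h2.symm)
    funext j
    by_cases hji : j = i
    · subst hji
      ext
      · exact fin _ _ ja ea
      · exact fin _ _ jb eb
      · exact fin _ _ jc ec
    · exact hj j hji
  have hbij : Function.Bijective S := Finite.injective_iff_bijective.1 hinj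
  have h1 : ∀ x, h (ev α B x) = h (S x i) := by
    intro x
    simp [hS]
  simp only [h1]
  rw [Function.Bijective.sum_comp hbij (fun y => h (y i)),
    ← Equiv.sum_comp (Equiv.funSplitAt i T).symm, Fintype.sum_prod_type]
  have h2 : ∀ (g : T) (y : {j // j ≠ i} → T), (Equiv.funSplitAt i T).symm (g, y) i = g := by
    intro g y
    have := (Equiv.funSplitAt i T).apply_symm_apply (g, y)
    exact congrArg Prod.fst this
  simp only [h2, Finset.sum_const, Finset.card_univ, nsmul_eq_mul]
  rw [Finset.mul_sum]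

/-! ### The main theorem -/

section main

variable {V : Type} [AddCommGroup V] [Module ℂ V] [FiniteDimensional ℂ V]

lemma card_T : Nat.card T = 729 := by
  have e : T ≃ ZMod 9 × ZMod 9 × ZMod 9 :=
    ⟨fun x => (x.a, x.b, x.c), fun p => ⟨p.1, p.2.1, p.2.2⟩, fun x => rfl, fun p => rfl⟩
  rw [Nat.card_congr e, Nat.card_eq_fintype_card]
  simp only [Fintype.card_prod, ZMod.card]

lemma main_sum {r : ℕ} (hr : 1 ≤ r) (w : FreeGroup (Fin r)) (ρ : Representation ℂ T V) :
    ∃ n : ℤ, ∑ x : Fin r → T, ρ.character (FreeGroup.lift x w) = 729 * n := by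
  obtain ⟨α, B, hw⟩ := word_formula w
  simp only [hw]
  by_cases hα : ∀ i, red (α i) = 0
  · obtain ⟨β, hβ⟩ := ev_eq_F α B hα
    simp only [hβ]
    rw [sum_rd (fun v => ρ.character (F β (B.map red) v))]
    rcases Nat.lt_or_ge 1 r with h1 | h1
    · obtain ⟨n, hn⟩ := sum_F β (B.map red) ρ
      refine ⟨27 ^ (r - 2) * n, ?_⟩
      rw [hn]
      obtain ⟨k, rfl⟩ : ∃ k, r = k + 2 := ⟨r - 2, by omega⟩
      push_cast
      ring
    · obtain rfl : r = 1 := le_antisymm h1 hr
      obtain ⟨n, hn⟩ := sum_F_one β (B.map red) ρ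
      refine ⟨n, ?_⟩
      rw [hn]
      push_cast
      ring
  · push Not at hα
    obtain ⟨i, hi⟩ := hα
    rw [sum_unit α B i hi]
    obtain ⟨n, hn⟩ := sum_char_hom (MonoidHom.id T) ρ
    simp only [MonoidHom.id_apply] at hn
    rw [hn, card_T]
    refine ⟨Fintype.card ({j // j ≠ i} → T) * n, ?_⟩
    push_cast
    ring

lemma sum_count {G : Type} [Group G] [Fintype G] {r : ℕ} (w : FreeGroup (Fin r)) (h : G → ℂ) :
    ∑ g : G, (solutionCount w g : ℂ) * h g = ∑ x : Fin r → G, h (FreeGroup.lift x w) := by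
  classical
  have h1 : ∀ g : G, (solutionCount w g : ℂ) * h g =
      ∑ x : Fin r → G with FreeGroup.lift x w = g, h (FreeGroup.lift x w) := by
    intro g
    rw [Finset.sum_congr rfl (g := fun _ => h g) (fun x hx => by
      rw [(Finset.mem_filter.1 hx).2])]
    rw [Finset.sum_const, nsmul_eq_mul, solutionCount, Nat.card_eq_fintype_card,
      Fintype.card_subtype]
  rw [Finset.sum_congr rfl (fun g _ => h1 g)]
  exact Finset.sum_fiberwise _ _ _

end main

lemma semiRational_T : SemiRational T := by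
  intro r hr w V _ _ _ ρ _
  obtain ⟨n, hn⟩ := main_sum hr w ρ
  refine ⟨n, ?_⟩
  rw [coefficient, sum_count w (fun g => (starRingEnd ℂ) (ρ.character g)), ← map_sum, hn, card_T]
  have h729 : (starRingEnd ℂ) 729 = 729 := by
    have := Complex.conj_natCast 729
    simpa using this
  simp only [map_mul, h729, map_intCast, Nat.cast_ofNat]
  rw [← mul_assoc, inv_mul_cancel₀ (by norm_num), one_mul]

/-- There is a finite semi-rational group whose absolute center has exponent greater than `2`;
more precisely its absolute center contains an element of order `3`. -/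
theorem result : ∃ (G : Type) (_ : Group G) (_ : Fintype G), SemiRational G ∧
    2 < Monoid.exponent (absoluteCenter G) ∧ ∃ z ∈ absoluteCenter G, orderOf z = 3 := by
  have hz : (⟨0, 0, 3⟩ : T) ∈ absoluteCenter T := fun α => fixed α
  have hord : orderOf (⟨0, 0, 3⟩ : T) = 3 := by
    have : Fact (Nat.Prime 3) := ⟨by norm_num⟩
    exact orderOf_eq_prime (by decide) (by decide)
  refine ⟨T, inferInstance, inferInstance, semiRational_T, ?_, _, hz, hord⟩
  have h1 : orderOf (⟨_, hz⟩ : absoluteCenter T) ∣ Monoid.exponent (absoluteCenter T) :=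
    Monoid.order_dvd_exponent _
  rw [Subgroup.orderOf_mk, hord] at h1
  have h2 : Monoid.exponent (absoluteCenter T) ≠ 0 := Monoid.exponent_ne_zero_of_finite
  have := Nat.le_of_dvd (Nat.pos_of_ne_zero h2) h1
  omega

end Pool.Agent.Results.MP_82b5c7_al.SemiRationalAbsoluteCenter
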